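import Pool.Agent.Helper81.Dissoc.Defs
import Pool.Agent.Helper81.Dissoc.Totient

/-!
# The conjectured value of `dim(ℤ_n, m)` is wrong for infinitely many `n`
-/

set_option autoImplicit false

namespace Pool.Agent.Results.MP_6c00f2_co.CyclicConjectureFails

open Pool.Agent.Helper81.Dissoc

/-- For every `s ≥ 4`, with `n = 2^s + 1` and `m = 2^s - 1`, one has
`dim(ℤ_n, m) = s = ⌊log₂ m⌋ + 1`. -/
theorem result : ∀ s : ℕ, 4 ≤ s →
    dimGm (ZMod (2 ^ s + 1)) (2 ^ s - 1) = Nat.log 2 (2 ^ s - 1) + 1 := by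
  intro s hs
  rw [dimGm_two_pow_add_one hs, log_two_pow_sub_one (by omega)]
  omega

end Pool.Agent.Results.MP_6c00f2_co.CyclicConjectureFails
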